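import Pool.Agent.Q110.HC.Block

set_option autoImplicit false
open Finset

namespace Pool.Agent.Results.MP_ef0d97_co.CubicOrder

open Q110.HC

/-- `F` is vertex-transitive: the permutations of `Fin n` preserving `F` act transitively. -/
def VertexTransitive {n : ℕ} (F : Finset (Finset (Fin n))) : Prop :=
  ∀ u w : Fin n, ∃ σ : Equiv.Perm (Fin n), F.image (fun X => X.map σ.toEmbedding) = F ∧ σ u = w

/-- `v(n)`: the least size of a vertex-transitive family of 4-subsets of `Fin n` with respect to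
which `K_n` has no `(2,2)`-acceptable Hamilton cycle. -/
noncomputable def v (n : ℕ) : ℕ :=
  sInf {k | ∃ F : Finset (Finset (Fin n)), (∀ X ∈ F, X.card = 4) ∧ VertexTransitive F ∧
    (∀ c : Equiv.Perm (Fin n), ¬ Acceptable F c) ∧ F.card = k}

theorem deg_eq {n : ℕ} (F : Finset (Finset (Fin n))) (h : VertexTransitive F) (u w : Fin n) :
    deg F u = deg F w := by
  classical
  obtain ⟨σ, hσ, hw⟩ := h u w
  have hinj : Function.Injective (fun X : Finset (Fin n) => X.map σ.toEmbedding) :=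
    Finset.map_injective _
  have h1 : (F.filter (fun X => u ∈ X)).image (fun X => X.map σ.toEmbedding) =
      F.filter (fun X => w ∈ X) := by
    ext Y
    constructor
    · intro hY
      obtain ⟨X, hX, rfl⟩ := Finset.mem_image.1 hY
      obtain ⟨h2, h3⟩ := Finset.mem_filter.1 hX
      refine Finset.mem_filter.2 ⟨?_, ?_⟩
      · rw [← hσ]
        exact Finset.mem_image_of_mem _ h2
      · rw [← hw]
        exact Finset.mem_map_of_mem _ h3
    · intro hY
      obtain ⟨h2, h3⟩ := Finset.mem_filter.1 hY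
      rw [← hσ] at h2
      obtain ⟨X, hX, rfl⟩ := Finset.mem_image.1 h2
      refine Finset.mem_image.2 ⟨X, Finset.mem_filter.2 ⟨hX, ?_⟩, rfl⟩
      rw [← hw] at h3
      obtain ⟨a, ha, ha'⟩ := Finset.mem_map.1 h3
      have : a = u := σ.injective ha'
      rwa [this] at ha
  unfold deg
  rw [← h1, Finset.card_image_of_injective _ hinj]

theorem sum_deg {n : ℕ} (F : Finset (Finset (Fin n))) (hF : ∀ X ∈ F, X.card = 4) :
    ∑ u, deg F u = 4 * F.card := by
  classical
  unfold deg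
  have e1 : ∀ u, (F.filter (fun X => u ∈ X)).card = ∑ X ∈ F, if u ∈ X then 1 else 0 :=
    fun u => Finset.card_filter _ _
  simp only [e1]
  rw [Finset.sum_comm]
  have e2 : ∀ X ∈ F, (∑ u : Fin n, if u ∈ X then 1 else 0) = 4 := by
    intro X hX
    rw [← Finset.card_filter, ← hF X hX]
    congr 1
    ext u
    simp
  rw [Finset.sum_congr rfl e2, Finset.sum_const, smul_eq_mul, mul_comm]

theorem exists_of_small {n : ℕ} (hn : 10 ≤ n) (F : Finset (Finset (Fin n)))
    (hF : ∀ X ∈ F, X.card = 4) (hV : VertexTransitive F) (h : 28000 * F.card ≤ n ^ 3) :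
    ∃ c : Equiv.Perm (Fin n), Acceptable F c := by
  refine main hn F fun u => ?_
  have h1 := sum_deg F hF
  rw [Finset.sum_congr rfl (fun w _ => deg_eq F hV w u), Finset.sum_const, Finset.card_univ,
    Fintype.card_fin, smul_eq_mul] at h1
  have h2 : n * (7000 * deg F u) ≤ n * (n * n) := by nlinarith
  exact Nat.le_of_mul_le_mul_left h2 (by omega)

theorem nonempty {n : ℕ} (hn : 4 ≤ n) : {k | ∃ F : Finset (Finset (Fin n)),
    (∀ X ∈ F, X.card = 4) ∧ VertexTransitive F ∧
    (∀ c : Equiv.Perm (Fin n), ¬ Acceptable F c) ∧ F.card = k}.Nonempty := by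
  classical
  refine ⟨_, (Finset.univ : Finset (Finset (Fin n))).filter (fun X => X.card = 4), ?_, ?_, ?_, rfl⟩
  · intro X hX
    exact (Finset.mem_filter.1 hX).2
  · intro u w
    refine ⟨Equiv.swap u w, ?_, Equiv.swap_apply_left u w⟩
    ext Y
    simp only [Finset.mem_image, Finset.mem_filter, Finset.mem_univ, true_and]
    constructor
    · rintro ⟨X, hX, rfl⟩
      rw [Finset.card_map, hX]
    · intro hY
      refine ⟨Y.map (Equiv.swap u w).symm.toEmbedding, by rw [Finset.card_map, hY], ?_⟩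
      rw [Finset.map_map]
      ext x
      simp
  · intro c hc
    obtain ⟨i, j, h1, _, _, h4⟩ := two_edges hn c ⟨0, by omega⟩ ⟨1, by omega⟩ (by simp)
    exact hc i j h1 (Finset.mem_filter.2 ⟨Finset.mem_univ _, h4⟩)

theorem lower {n : ℕ} (hn : 4 ≤ n) : n ^ 3 ≤ 28000 * v n := by
  obtain ⟨F, hF, hV, hc, hk⟩ := Nat.sInf_mem (nonempty hn)
  have hk' : F.card = v n := hk
  by_contra hcon
  push Not at hcon
  rcases Nat.lt_or_ge n 10 with h10 | h10
  · have h1 : n ^ 3 ≤ 9 ^ 3 := Nat.pow_le_pow_left (by omega) 3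
    have h2 : F.card = 0 := by omega
    rw [Finset.card_eq_zero] at h2
    subst h2
    exact hc 1 (fun i j _ h => by simp at h)
  · obtain ⟨c, hcc⟩ := exists_of_small h10 F hF hV (by rw [hk']; exact hcon.le)
    exact hc c hcc

theorem upper {n : ℕ} (hn : 4 ≤ n) : v n ≤ n ^ 3 := by
  classical
  set F := (Finset.univ : Finset (Finset (Fin n))).filter
    (fun X => X.card = 4 ∧ ∃ x, x ∈ X ∧ finRotate n x ∈ X) with hF
  have htr : ∀ u w : Fin n, ∃ σ : Equiv.Perm (Fin n), σ u = w ∧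
      ∀ x, finRotate n (σ x) = σ (finRotate n x) := by
    intro u w
    obtain ⟨m, rfl⟩ : ∃ m, n = m + 1 := ⟨n - 1, by omega⟩
    refine ⟨Equiv.addRight (w - u), ?_, ?_⟩
    · change u + (w - u) = w
      exact add_sub_cancel u w
    · intro x
      rw [finRotate_apply, finRotate_apply]
      change x + (w - u) + 1 = x + 1 + (w - u)
      exact add_right_comm x (w - u) 1
  have hmem : F.card ∈ {k | ∃ F : Finset (Finset (Fin n)), (∀ X ∈ F, X.card = 4) ∧
      VertexTransitive F ∧ (∀ c : Equiv.Perm (Fin n), ¬ Acceptable F c) ∧ F.card = k} := by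
    refine ⟨F, fun X hX => (Finset.mem_filter.1 hX).2.1, ?_, ?_, rfl⟩
    · intro u w
      obtain ⟨σ, hσ, hcomm⟩ := htr u w
      refine ⟨σ, ?_, hσ⟩
      ext Y
      simp only [hF, Finset.mem_image, Finset.mem_filter, Finset.mem_univ, true_and]
      constructor
      · rintro ⟨X, ⟨hX, x, hx, hx'⟩, rfl⟩
        refine ⟨by rw [Finset.card_map, hX], σ x, ?_, ?_⟩
        · exact Finset.mem_map_of_mem _ hx
        · rw [hcomm]
          exact Finset.mem_map_of_mem _ hx'
      · rintro ⟨hY, y, hy, hy'⟩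
        refine ⟨Y.map σ.symm.toEmbedding, ⟨by rw [Finset.card_map, hY],
          σ.symm y, ?_, ?_⟩, ?_⟩
        · exact Finset.mem_map_of_mem _ hy
        · have h1 : finRotate n (σ.symm y) = σ.symm (finRotate n y) := by
            apply σ.injective
            rw [← hcomm, Equiv.apply_symm_apply, Equiv.apply_symm_apply]
          rw [h1]
          exact Finset.mem_map_of_mem _ hy'
        · rw [Finset.map_map]
          ext x
          simp
    · intro c hc
      have hne : (⟨0, by omega⟩ : Fin n) ≠ finRotate n ⟨0, by omega⟩ :=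
        (next_ne (by omega) _).symm
      obtain ⟨i, j, h1, h2, h3, h4⟩ := two_edges hn c ⟨0, by omega⟩ (finRotate n ⟨0, by omega⟩) hne
      refine hc i j h1 (Finset.mem_filter.2 ⟨Finset.mem_univ _, h4, ⟨0, by omega⟩, ?_, ?_⟩)
      · exact Finset.mem_union_left _ h2
      · exact Finset.mem_union_right _ h3
  have hv : v n ≤ F.card := Nat.sInf_le hmem
  refine hv.trans ?_
  have hsub : F ⊆ (Finset.univ : Finset (Fin n × Fin n × Fin n)).image
      (fun p => {p.1, finRotate n p.1, p.2.1, p.2.2}) := by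
    intro X hX
    obtain ⟨hX4, x, hx, hx'⟩ := (Finset.mem_filter.1 hX).2
    have hne : finRotate n x ≠ x := next_ne (by omega) x
    have h1 : ((X.erase x).erase (finRotate n x)).card = 2 := by
      rw [Finset.card_erase_of_mem (Finset.mem_erase.2 ⟨hne, hx'⟩), Finset.card_erase_of_mem hx, hX4]
    obtain ⟨a, b, hab, he⟩ := Finset.card_eq_two.1 h1
    refine Finset.mem_image.2 ⟨(x, a, b), Finset.mem_univ _, ?_⟩
    simp only
    rw [← he, Finset.insert_erase (Finset.mem_erase.2 ⟨hne, hx'⟩), Finset.insert_erase hx]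
  refine (Finset.card_le_card hsub).trans (Finset.card_image_le.trans (le_of_eq ?_))
  simp
  ring

/-- `v(n) = Θ(n³)`: for all `n ≥ 4` one has `n³ / 28000 ≤ v(n) ≤ n³`; in particular there is no
constant `c` with `v(n) ≤ c n²` for all `n ≥ 4`. -/
theorem result :
    (∀ n : ℕ, 4 ≤ n → (n : ℝ) ^ 3 / 28000 ≤ (v n : ℝ) ∧ (v n : ℝ) ≤ (n : ℝ) ^ 3) ∧
    ¬ ∃ c : ℝ, ∀ n : ℕ, 4 ≤ n → (v n : ℝ) ≤ c * (n : ℝ) ^ 2 := by
  have h1 : ∀ n : ℕ, 4 ≤ n → (n : ℝ) ^ 3 / 28000 ≤ (v n : ℝ) ∧ (v n : ℝ) ≤ (n : ℝ) ^ 3 := by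
    intro n hn
    have e1 : ((n ^ 3 : ℕ) : ℝ) ≤ ((28000 * v n : ℕ) : ℝ) := by exact_mod_cast lower hn
    have e2 : ((v n : ℕ) : ℝ) ≤ ((n ^ 3 : ℕ) : ℝ) := by exact_mod_cast upper hn
    push_cast at e1 e2
    exact ⟨by linarith, e2⟩
  refine ⟨h1, ?_⟩
  rintro ⟨c, hc⟩
  obtain ⟨n, hn⟩ := exists_nat_gt (max 4 (28000 * c))
  have h4 : (4 : ℝ) < n := lt_of_le_of_lt (le_max_left _ _) hn
  have h5 : 28000 * c < n := lt_of_le_of_lt (le_max_right _ _) hn
  have h6 : 4 ≤ n := by
    have : (4 : ℕ) < n := by exact_mod_cast h4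
    omega
  have h7 := (h1 n h6).1
  have h8 := hc n h6
  have h9 : (n : ℝ) ^ 3 ≤ 28000 * c * (n : ℝ) ^ 2 := by linarith
  have h10 : 0 < (n : ℝ) ^ 2 := by positivity
  nlinarith

end Pool.Agent.Results.MP_ef0d97_co.CubicOrder
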